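import Mathlib

/-! # MP_7d81a9_an (project RD4): generation and word length

* `Sp(4,R)` (`Matrix.symplecticGroup (Fin 2) R`) is generated by the compact set of its elements with
  all entries of absolute value at most 1.
* A discrete subgroup meets a compact set in a finite set.
* A discrete cocompact subgroup is finitely generated.
* Comparison of the word length with any subadditive symmetric function `L`, and the reduction of the
  frozen statement S05157 to the rapid decay inequality with the weight `(1 + c0 * L)^(2s)`.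
-/

set_option autoImplicit false

open Matrix
open scoped Pointwise

namespace RD4.Gen

/-- the group `Sp(4,R)` -/
abbrev Sp : Type := ↥(Matrix.symplecticGroup (Fin 2) ℝ)

/-- `2 x 2` real matrices -/
abbrev M2 : Type := Matrix (Fin 2) (Fin 2) ℝ

instance : ContinuousMul Sp := inferInstanceAs (ContinuousMul (Matrix.symplecticGroup (Fin 2) ℝ))

instance : ContinuousInv Sp where
  continuous_inv := by
    refine Topology.IsInducing.subtypeVal.continuous_iff.2 ?_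
    have h : Continuous fun A : Sp =>
        (-J (Fin 2) ℝ) * (A : Matrix (Fin 2 ⊕ Fin 2) (Fin 2 ⊕ Fin 2) ℝ)ᵀ * J (Fin 2) ℝ :=
      (continuous_const.matrix_mul (continuous_subtype_val.matrix_transpose)).matrix_mul
        continuous_const
    exact h.congr fun A => (SymplecticGroup.coe_inv A).symm

instance : IsTopologicalGroup Sp where

theorem isClosed_sp : IsClosed (Set.range (Subtype.val : Sp → Matrix (Fin 2 ⊕ Fin 2) (Fin 2 ⊕ Fin 2) ℝ)) := by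
  have h : Set.range (Subtype.val : Sp → Matrix (Fin 2 ⊕ Fin 2) (Fin 2 ⊕ Fin 2) ℝ) =
      {A : Matrix (Fin 2 ⊕ Fin 2) (Fin 2 ⊕ Fin 2) ℝ | A * J (Fin 2) ℝ * Aᵀ = J (Fin 2) ℝ} := by
    ext A
    constructor
    · rintro ⟨B, rfl⟩
      exact SymplecticGroup.mem_iff.1 B.2
    · intro hA
      exact ⟨⟨A, SymplecticGroup.mem_iff.2 hA⟩, rfl⟩
  rw [h]
  refine isClosed_eq ?_ continuous_const
  exact (continuous_id.matrix_mul continuous_const).matrix_mul (continuous_id.matrix_transpose)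

theorem isClosedEmbedding_val :
    Topology.IsClosedEmbedding (Subtype.val : Sp → Matrix (Fin 2 ⊕ Fin 2) (Fin 2 ⊕ Fin 2) ℝ) :=
  ⟨Topology.IsEmbedding.subtypeVal, isClosed_sp⟩

/-- the elements with entries bounded by `r` form a compact set -/
theorem isCompact_box (r : ℝ) :
    IsCompact {g : Sp | ∀ i j, |(g : Matrix (Fin 2 ⊕ Fin 2) (Fin 2 ⊕ Fin 2) ℝ) i j| ≤ r} := by
  have h : {g : Sp | ∀ i j, |(g : Matrix (Fin 2 ⊕ Fin 2) (Fin 2 ⊕ Fin 2) ℝ) i j| ≤ r} =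
      (Subtype.val : Sp → Matrix (Fin 2 ⊕ Fin 2) (Fin 2 ⊕ Fin 2) ℝ) ⁻¹'
        (Set.pi Set.univ fun _ => Set.pi Set.univ fun _ => Set.Icc (-r) r) := by
    ext g
    constructor
    · intro hg i _ j _
      exact abs_le.1 (hg i j)
    · intro hg i j
      exact abs_le.2 (hg i trivial j trivial)
  rw [h]
  refine isClosedEmbedding_val.isCompact_preimage ?_
  exact isCompact_univ_pi fun _ => isCompact_univ_pi fun _ => isCompact_Icc

/-- the compact generating set -/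
def Q : Set Sp := {g : Sp | ∀ i j, |(g : Matrix (Fin 2 ⊕ Fin 2) (Fin 2 ⊕ Fin 2) ℝ) i j| ≤ 1}

theorem isCompact_Q : IsCompact Q := isCompact_box 1

/-- upper unipotent elements -/
def up (X : M2) (hX : Xᵀ = X) : Sp :=
  ⟨fromBlocks 1 X 0 1, by
    rw [SymplecticGroup.fromBlocks_mem_iff]
    simp [hX]⟩

/-- lower unipotent elements -/
def lo (X : M2) (hX : Xᵀ = X) : Sp :=
  ⟨fromBlocks 1 0 X 1, by
    rw [SymplecticGroup.fromBlocks_mem_iff]
    simp [hX]⟩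

theorem up_pow (X : M2) (hX : Xᵀ = X) (n : ℕ) (h : ((n : ℝ) • X)ᵀ = (n : ℝ) • X) :
    up X hX ^ n = up ((n : ℝ) • X) h := by
  apply Subtype.ext
  rw [SubmonoidClass.coe_pow]
  simp only [up]
  clear h
  induction n with
  | zero => simp [fromBlocks_one]
  | succ n ih =>
    rw [pow_succ, ih, fromBlocks_multiply]
    congr 1 <;> simp [add_smul, add_comm]

theorem lo_pow (X : M2) (hX : Xᵀ = X) (n : ℕ) (h : ((n : ℝ) • X)ᵀ = (n : ℝ) • X) :
    lo X hX ^ n = lo ((n : ℝ) • X) h := by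
  apply Subtype.ext
  rw [SubmonoidClass.coe_pow]
  simp only [lo]
  clear h
  induction n with
  | zero => simp [fromBlocks_one]
  | succ n ih =>
    rw [pow_succ, ih, fromBlocks_multiply]
    congr 1 <;> simp [add_smul, add_comm]

theorem exists_small (X : M2) : ∃ n : ℕ, 0 < n ∧ ∀ i j, |((n : ℝ)⁻¹ • X) i j| ≤ 1 := by
  obtain ⟨n, hn⟩ := exists_nat_ge (∑ i, ∑ j, |X i j| + 1)
  have hpos : (0 : ℝ) < n := by
    have h0 : (0 : ℝ) ≤ ∑ i, ∑ j, |X i j| :=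
      Finset.sum_nonneg fun i _ => Finset.sum_nonneg fun j _ => abs_nonneg _
    linarith
  refine ⟨n, by exact_mod_cast hpos, fun i j => ?_⟩
  rw [Matrix.smul_apply, smul_eq_mul, abs_mul, abs_inv, abs_of_pos hpos, inv_mul_le_iff₀ hpos, mul_one]
  have h1 : |X i j| ≤ ∑ j, |X i j| :=
    Finset.single_le_sum (f := fun j => |X i j|) (fun j _ => abs_nonneg _) (Finset.mem_univ j)
  have h2 : ∑ j, |X i j| ≤ ∑ i, ∑ j, |X i j| :=
    Finset.single_le_sum (f := fun i => ∑ j, |X i j|)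
      (fun i _ => Finset.sum_nonneg fun j _ => abs_nonneg _) (Finset.mem_univ i)
  linarith

theorem one_entry_le (i j : Fin 2) : |(1 : M2) i j| ≤ 1 := by
  rw [Matrix.one_apply]
  split_ifs <;> simp

theorem up_mem (X : M2) (hX : Xᵀ = X) : up X hX ∈ Subgroup.closure Q := by
  obtain ⟨n, hn, hs⟩ := exists_small X
  have hn' : (n : ℝ) ≠ 0 := by exact_mod_cast hn.ne'
  have h1 : ((n : ℝ)⁻¹ • X)ᵀ = (n : ℝ)⁻¹ • X := by rw [Matrix.transpose_smul, hX]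
  have h2 : (n : ℝ) • ((n : ℝ)⁻¹ • X) = X := by rw [smul_smul, mul_inv_cancel₀ hn', one_smul]
  have h3 : ((n : ℝ) • ((n : ℝ)⁻¹ • X))ᵀ = (n : ℝ) • ((n : ℝ)⁻¹ • X) := by rw [h2, hX]
  have h4 : up X hX = up ((n : ℝ)⁻¹ • X) h1 ^ n := by
    rw [up_pow _ h1 n h3]
    apply Subtype.ext
    simp only [up, h2]
  rw [h4]
  refine Subgroup.pow_mem _ (Subgroup.subset_closure ?_) n
  intro i j
  rcases i with i | i <;> rcases j with j | j
  · exact one_entry_le i j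
  · exact hs i j
  · simp [up]
  · exact one_entry_le i j

theorem lo_mem (X : M2) (hX : Xᵀ = X) : lo X hX ∈ Subgroup.closure Q := by
  obtain ⟨n, hn, hs⟩ := exists_small X
  have hn' : (n : ℝ) ≠ 0 := by exact_mod_cast hn.ne'
  have h1 : ((n : ℝ)⁻¹ • X)ᵀ = (n : ℝ)⁻¹ • X := by rw [Matrix.transpose_smul, hX]
  have h2 : (n : ℝ) • ((n : ℝ)⁻¹ • X) = X := by rw [smul_smul, mul_inv_cancel₀ hn', one_smul]
  have h3 : ((n : ℝ) • ((n : ℝ)⁻¹ • X))ᵀ = (n : ℝ) • ((n : ℝ)⁻¹ • X) := by rw [h2, hX]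
  have h4 : lo X hX = lo ((n : ℝ)⁻¹ • X) h1 ^ n := by
    rw [lo_pow _ h1 n h3]
    apply Subtype.ext
    simp only [lo, h2]
  rw [h4]
  refine Subgroup.pow_mem _ (Subgroup.subset_closure ?_) n
  intro i j
  rcases i with i | i <;> rcases j with j | j
  · exact one_entry_le i j
  · simp [lo]
  · exact hs i j
  · exact one_entry_le i j

/-- the Weyl type element `(0, S; -S⁻¹, 0)` -/
theorem weyl_mem (S : M2) (hS : Sᵀ = S) (hd : IsUnit S.det) (g : Sp)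
    (hg : (g : Matrix (Fin 2 ⊕ Fin 2) (Fin 2 ⊕ Fin 2) ℝ) = fromBlocks 0 S (-S⁻¹) 0) :
    g ∈ Subgroup.closure Q := by
  have hi : (-S⁻¹)ᵀ = -S⁻¹ := by rw [Matrix.transpose_neg, Matrix.transpose_nonsing_inv, hS]
  have h : g = up S hS * lo (-S⁻¹) hi * up S hS := by
    apply Subtype.ext
    rw [hg]
    simp only [Submonoid.coe_mul, up, lo, fromBlocks_multiply]
    have e1 : S * S⁻¹ = 1 := Matrix.mul_nonsing_inv S hd
    have e2 : S⁻¹ * S = 1 := Matrix.nonsing_inv_mul S hd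
    congr 1 <;> simp [e1, e2]
  rw [h]
  exact Subgroup.mul_mem _ (Subgroup.mul_mem _ (up_mem _ _) (lo_mem _ _)) (up_mem _ _)

/-- every real 2 x 2 matrix is symmetric after multiplication with a suitable invertible
symmetric matrix -/
theorem exists_sym (A : M2) : ∃ S : M2, Sᵀ = S ∧ IsUnit S.det ∧ (A * S)ᵀ = A * S := by
  by_cases hc : A 1 0 = 0
  · by_cases hb : A 0 1 = 0
    · refine ⟨1, by simp, by simp, ?_⟩
      ext i j
      fin_cases i <;> fin_cases j <;> simp [hc, hb]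
    · refine ⟨!![0, A 0 1; A 0 1, A 1 1 - A 0 0], ?_, ?_, ?_⟩
      · ext i j
        fin_cases i <;> fin_cases j <;> simp
      · rw [Matrix.det_fin_two_of]
        simp [hb]
      · ext i j
        fin_cases i <;> fin_cases j <;> simp [Matrix.mul_apply, Fin.sum_univ_two, hc] <;> ring
  · refine ⟨!![A 0 0 - A 1 1, A 1 0; A 1 0, 0], ?_, ?_, ?_⟩
    · ext i j
      fin_cases i <;> fin_cases j <;> simp
    · rw [Matrix.det_fin_two_of]
      simp [hc]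
    · ext i j
      fin_cases i <;> fin_cases j <;> simp [Matrix.mul_apply, Fin.sum_univ_two] <;> ring

/-- Levi elements -/
theorem levi_mem (A : M2) (hA : IsUnit A.det) (g : Sp)
    (hg : (g : Matrix (Fin 2 ⊕ Fin 2) (Fin 2 ⊕ Fin 2) ℝ) = fromBlocks A 0 0 (A⁻¹)ᵀ) :
    g ∈ Subgroup.closure Q := by
  obtain ⟨S, hS, hSd, hT⟩ := exists_sym A
  have hTd : IsUnit (A * S).det := by rw [Matrix.det_mul]; exact hA.mul hSd
  have eS1 : S * S⁻¹ = 1 := Matrix.mul_nonsing_inv S hSd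
  have eS2 : S⁻¹ * S = 1 := Matrix.nonsing_inv_mul S hSd
  have eT1 : (A * S) * (A * S)⁻¹ = 1 := Matrix.mul_nonsing_inv _ hTd
  have eT2 : (A * S)⁻¹ * (A * S) = 1 := Matrix.nonsing_inv_mul _ hTd
  have hSi : (S⁻¹)ᵀ = S⁻¹ := by rw [Matrix.transpose_nonsing_inv, hS]
  have hTi : ((A * S)⁻¹)ᵀ = (A * S)⁻¹ := by rw [Matrix.transpose_nonsing_inv, hT]
  let w1 : Sp := ⟨fromBlocks 0 (A * S) (-(A * S)⁻¹) 0, by
    rw [SymplecticGroup.fromBlocks_mem_iff]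
    refine ⟨by simp, by simp, ?_⟩
    simp only [Matrix.transpose_neg, hTi, Matrix.transpose_zero, Matrix.zero_mul, Matrix.neg_mul,
      zero_sub, neg_neg]
    exact eT2⟩
  let w2 : Sp := ⟨fromBlocks 0 (-S) (S⁻¹) 0, by
    rw [SymplecticGroup.fromBlocks_mem_iff]
    refine ⟨by simp, by simp, ?_⟩
    simp only [hSi, Matrix.transpose_zero, Matrix.zero_mul, Matrix.mul_neg,
      zero_sub, neg_neg]
    exact eS2⟩
  have h : g = w1 * w2 := by
    apply Subtype.ext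
    rw [hg]
    simp only [w1, w2, Submonoid.coe_mul, fromBlocks_multiply]
    have e1 : A * S * S⁻¹ = A := by rw [Matrix.mul_assoc, eS1, Matrix.mul_one]
    have e2 : (A * S)⁻¹ * S = (A⁻¹)ᵀ := by
      have h3 : (A * S)⁻¹ = S⁻¹ * A⁻¹ := Matrix.mul_inv_rev A S
      have h4 : S * (A * S)⁻¹ = A⁻¹ := by
        rw [h3, ← Matrix.mul_assoc, eS1, Matrix.one_mul]
      rw [← h4, Matrix.transpose_mul, hTi, hS]
    congr 1
    · simp [e1]
    · simp
    · simp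
    · simp [e2]
  rw [h]
  refine Subgroup.mul_mem _ (weyl_mem (A * S) hT hTd _ rfl) ?_
  have hnd : IsUnit (-S).det := by
    rw [Matrix.det_neg]
    simpa using hSd
  refine weyl_mem (-S) (by rw [Matrix.transpose_neg, hS]) hnd _ ?_
  show fromBlocks 0 (-S) (S⁻¹) 0 = _
  congr 1
  symm
  rw [neg_eq_iff_eq_neg]
  refine Matrix.inv_eq_right_inv ?_
  simp [eS1]

/-- elements with invertible upper left block -/
theorem block_mem (A B C D : M2) (hA : IsUnit A.det) (g : Sp)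
    (hg : (g : Matrix (Fin 2 ⊕ Fin 2) (Fin 2 ⊕ Fin 2) ℝ) = fromBlocks A B C D) :
    g ∈ Subgroup.closure Q := by
  have hm : fromBlocks A B C D ∈ Matrix.symplecticGroup (Fin 2) ℝ := hg ▸ g.2
  have hm' := (SymplecticGroup.transpose_mem_iff.2 hm)
  rw [fromBlocks_transpose] at hm'
  obtain ⟨h1, h2, h3⟩ := SymplecticGroup.fromBlocks_mem_iff.1 hm
  obtain ⟨k1, k2, k3⟩ := SymplecticGroup.fromBlocks_mem_iff.1 hm'
  simp only [Matrix.transpose_transpose] at k1 k2 k3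
  have eA1 : A * A⁻¹ = 1 := Matrix.mul_nonsing_inv A hA
  have eA2 : A⁻¹ * A = 1 := Matrix.nonsing_inv_mul A hA
  have hAt : IsUnit Aᵀ.det := by rw [Matrix.det_transpose]; exact hA
  have eT1 : Aᵀ * (A⁻¹)ᵀ = 1 := by rw [← Matrix.transpose_mul, eA2, Matrix.transpose_one]
  have eT2 : (A⁻¹)ᵀ * Aᵀ = 1 := by rw [← Matrix.transpose_mul, eA1, Matrix.transpose_one]
  -- lower unipotent
  have hC : (C * A⁻¹)ᵀ = C * A⁻¹ := by
    rw [Matrix.transpose_mul]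
    calc (A⁻¹)ᵀ * Cᵀ = (A⁻¹)ᵀ * (Cᵀ * A) * A⁻¹ := by
          rw [← Matrix.mul_assoc, Matrix.mul_assoc, eA1, Matrix.mul_one]
      _ = (A⁻¹)ᵀ * (Aᵀ * C) * A⁻¹ := by rw [h1]
      _ = C * A⁻¹ := by rw [← Matrix.mul_assoc, eT2, Matrix.one_mul]
  have hB : (A⁻¹ * B)ᵀ = A⁻¹ * B := by
    rw [Matrix.transpose_mul]
    -- A * Bᵀ = B * Aᵀ
    calc Bᵀ * (A⁻¹)ᵀ = A⁻¹ * (A * Bᵀ) * (A⁻¹)ᵀ := by
          rw [← Matrix.mul_assoc, eA2, Matrix.one_mul]
      _ = A⁻¹ * (B * Aᵀ) * (A⁻¹)ᵀ := by rw [k1]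
      _ = A⁻¹ * B := by rw [Matrix.mul_assoc, Matrix.mul_assoc, eT1, Matrix.mul_one]
  let m : Sp := ⟨fromBlocks A 0 0 (A⁻¹)ᵀ, by
    rw [SymplecticGroup.fromBlocks_mem_iff]
    refine ⟨by simp, by simp, ?_⟩
    simp [eT1]⟩
  have h : g = lo (C * A⁻¹) hC * m * up (A⁻¹ * B) hB := by
    apply Subtype.ext
    rw [hg]
    simp only [m, up, lo, Submonoid.coe_mul, fromBlocks_multiply]
    have e1 : C * A⁻¹ * A = C := by rw [Matrix.mul_assoc, eA2, Matrix.mul_one]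
    have e2 : A * (A⁻¹ * B) = B := by rw [← Matrix.mul_assoc, eA1, Matrix.one_mul]
    have e3 : D = C * (A⁻¹ * B) + (A⁻¹)ᵀ := by
      have h4 : (A⁻¹)ᵀ * (Aᵀ * D - Cᵀ * B) = (A⁻¹)ᵀ := by rw [h3, Matrix.mul_one]
      rw [Matrix.mul_sub, ← Matrix.mul_assoc, eT2, Matrix.one_mul, ← Matrix.mul_assoc,
        ← Matrix.transpose_mul, hC] at h4
      rw [← Matrix.mul_assoc, ← h4]
      abel
    congr 1
    · simp
    · simp [e2]
    · simp [e1]
    · simp only [Matrix.one_mul, Matrix.mul_one, Matrix.mul_zero, zero_add, add_zero]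
      rw [e1]
      exact e3
  rw [h]
  exact Subgroup.mul_mem _ (Subgroup.mul_mem _ (lo_mem _ _) (levi_mem A hA m rfl)) (up_mem _ _)

/-- the invertibility trick for `2 x 2` blocks -/
theorem exists_X (A C : M2) (h1 : Aᵀ * C = Cᵀ * A)
    (hker : ∀ x : Fin 2 → ℝ, A *ᵥ x = 0 → C *ᵥ x = 0 → x = 0) :
    ∃ X : M2, Xᵀ = X ∧ (A + X * C).det ≠ 0 := by
  by_contra hcon
  have hcon : ∀ X : M2, Xᵀ = X → (A + X * C).det = 0 := by
    intro X hX
    by_contra hne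
    exact hcon ⟨X, hX, hne⟩
  have e0 := hcon !![0, 0; 0, 0] (by ext i j; fin_cases i <;> fin_cases j <;> simp)
  have e1 := hcon !![1, 0; 0, 0] (by ext i j; fin_cases i <;> fin_cases j <;> simp)
  have e2 := hcon !![0, 0; 0, 1] (by ext i j; fin_cases i <;> fin_cases j <;> simp)
  have e3 := hcon !![0, 1; 1, 0] (by ext i j; fin_cases i <;> fin_cases j <;> simp)
  have e4 := hcon !![0, -1; -1, 0] (by ext i j; fin_cases i <;> fin_cases j <;> simp)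
  have h01 := congrFun (congrFun h1 0) 1
  simp only [Matrix.det_fin_two, Matrix.add_apply, Matrix.mul_apply, Fin.sum_univ_two,
    Matrix.of_apply, Matrix.cons_val', Matrix.cons_val_zero, Matrix.cons_val_one,
    Matrix.cons_val_fin_one, Matrix.transpose_apply] at e0 e1 e2 e3 e4 h01
  have ker0 : ∀ u v : ℝ, A 0 0 * u + A 0 1 * v = 0 → A 1 0 * u + A 1 1 * v = 0 →
      C 0 0 * u + C 0 1 * v = 0 → C 1 0 * u + C 1 1 * v = 0 → u = 0 ∧ v = 0 := by
    intro u v a1 a2 a3 a4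
    have := hker ![u, v]
      (by ext i; fin_cases i <;> simpa [Matrix.mulVec, dotProduct, Fin.sum_univ_two])
      (by ext i; fin_cases i <;> simpa [Matrix.mulVec, dotProduct, Fin.sum_univ_two])
    exact ⟨congrFun this 0, congrFun this 1⟩
  have m01 : A 0 0 * A 1 1 - A 0 1 * A 1 0 = 0 := by linarith
  have m12 : A 1 0 * C 0 1 - A 1 1 * C 0 0 = 0 := by linarith
  have m03 : A 0 0 * C 1 1 - A 0 1 * C 1 0 = 0 := by linarith
  have m23 : C 0 0 * C 1 1 - C 0 1 * C 1 0 = 0 := by linarith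
  have m02 : A 0 0 * C 0 1 - A 0 1 * C 0 0 = 0 := by linarith
  have m13 : A 1 0 * C 1 1 - A 1 1 * C 1 0 = 0 := by linarith
  obtain ⟨a1, a0⟩ := ker0 (A 0 1) (-A 0 0) (by ring) (by linarith) (by linarith) (by linarith)
  obtain ⟨a3, a2⟩ := ker0 (A 1 1) (-A 1 0) (by linarith) (by ring) (by linarith) (by linarith)
  obtain ⟨c1, c0⟩ := ker0 (C 0 1) (-C 0 0) (by linarith) (by linarith) (by ring) (by linarith)
  obtain ⟨c3, c2⟩ := ker0 (C 1 1) (-C 1 0) (by linarith) (by linarith) (by linarith) (by ring)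
  obtain ⟨one, -⟩ := ker0 1 0 (by linarith) (by linarith) (by linarith) (by linarith)
  exact one_ne_zero one

/-- `Sp(4,R)` is generated by the compact set `Q` -/
theorem closure_Q : Subgroup.closure Q = ⊤ := by
  rw [eq_top_iff]
  intro g _
  set M := (g : Matrix (Fin 2 ⊕ Fin 2) (Fin 2 ⊕ Fin 2) ℝ) with hM
  have hMm : fromBlocks M.toBlocks₁₁ M.toBlocks₁₂ M.toBlocks₂₁ M.toBlocks₂₂ ∈
      Matrix.symplecticGroup (Fin 2) ℝ := by
    rw [fromBlocks_toBlocks]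
    exact g.2
  obtain ⟨h1, -, -⟩ := SymplecticGroup.fromBlocks_mem_iff.1 hMm
  have hker : ∀ x : Fin 2 → ℝ, M.toBlocks₁₁ *ᵥ x = 0 → M.toBlocks₂₁ *ᵥ x = 0 → x = 0 := by
    intro x hx1 hx2
    have hF : IsUnit M := M.isUnit_iff_isUnit_det.2 (SymplecticGroup.symplectic_det g.2)
    have h2 : M *ᵥ (Sum.elim x 0) = M *ᵥ (Sum.elim 0 0) := by
      conv_lhs => rw [← M.fromBlocks_toBlocks]
      simp [fromBlocks_mulVec, hx1, hx2]
    exact (Sum.elim_eq_iff.1 (mulVec_injective_iff_isUnit.2 hF h2)).1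
  obtain ⟨X, hX, hdet⟩ := exists_X _ _ h1 hker
  have h3 : up X hX * g ∈ Subgroup.closure Q := by
    refine block_mem (M.toBlocks₁₁ + X * M.toBlocks₂₁) (M.toBlocks₁₂ + X * M.toBlocks₂₂)
      M.toBlocks₂₁ M.toBlocks₂₂ (isUnit_iff_ne_zero.2 hdet) _ ?_
    rw [Submonoid.coe_mul, ← hM]
    conv_lhs => rw [← M.fromBlocks_toBlocks]
    simp only [up, fromBlocks_multiply, Matrix.one_mul, Matrix.zero_mul, zero_add]
  have h4 : g = (up X hX)⁻¹ * (up X hX * g) := by group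
  rw [h4]
  exact Subgroup.mul_mem _ (Subgroup.inv_mem _ (up_mem _ _)) h3

/-- a discrete subgroup meets a compact set in a finite set -/
theorem finite_inter {Γ : Subgroup Sp} [DiscreteTopology ↥Γ] {K : Set Sp} (hK : IsCompact K) :
    {γ : ↥Γ | (γ : Sp) ∈ K}.Finite := by
  have hcl : IsClosed (Γ : Set Sp) := Subgroup.isClosed_of_discrete
  have h1 : IsCompact {γ : ↥Γ | (γ : Sp) ∈ K} :=
    (Topology.IsClosedEmbedding.isCompact_preimage (f := (Subtype.val : ↥Γ → Sp))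
      hcl.isClosedEmbedding_subtypeVal hK)
  exact h1.finite_of_discrete

/-- **Finite generation of discrete cocompact subgroups.** -/
theorem exists_gen (Γ : Subgroup Sp) [DiscreteTopology ↥Γ]
    (hK : ∃ K : Set Sp, IsCompact K ∧ ∀ g : Sp, ∃ γ ∈ Γ, ∃ k ∈ K, g = γ * k) :
    ∃ S : Finset ↥Γ, Subgroup.closure (S : Set ↥Γ) = ⊤ := by
  obtain ⟨K, hKc, hKg⟩ := hK
  set K' : Set Sp := K ∪ {1} with hK'
  have hK'c : IsCompact K' := hKc.union isCompact_singleton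
  set Q' : Set Sp := Q ∪ Q⁻¹ with hQ'
  have hQ'c : IsCompact Q' := isCompact_Q.union isCompact_Q.inv
  have hcomp : IsCompact (K' * Q' * K'⁻¹ ∪ K') := ((hK'c.mul hQ'c).mul hK'c.inv).union hK'c
  set S := (finite_inter (Γ := Γ) hcomp).toFinset with hS
  have hSm : ∀ γ : ↥Γ, (γ : Sp) ∈ K' * Q' * K'⁻¹ ∪ K' → γ ∈ Subgroup.closure (S : Set ↥Γ) := by
    intro γ hγ
    refine Subgroup.subset_closure ?_
    rw [hS, Set.Finite.coe_toFinset]
    exact hγ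
  refine ⟨S, ?_⟩
  -- every element of Sp is in Γ0 K'
  have hall : ∀ g : Sp, ∃ γ : ↥Γ, γ ∈ Subgroup.closure (S : Set ↥Γ) ∧ ∃ k ∈ K', g = (γ : Sp) * k := by
    have hstep : ∀ g : Sp, (∃ γ : ↥Γ, γ ∈ Subgroup.closure (S : Set ↥Γ) ∧ ∃ k ∈ K', g = (γ : Sp) * k) →
        ∀ q ∈ Q', ∃ γ : ↥Γ, γ ∈ Subgroup.closure (S : Set ↥Γ) ∧ ∃ k ∈ K', g * q = (γ : Sp) * k := by
      rintro g ⟨γ, hγ, k, hk, rfl⟩ q hq
      obtain ⟨γ1, hγ1, k1, hk1, he⟩ := hKg (k * q)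
      refine ⟨γ * ⟨γ1, hγ1⟩, Subgroup.mul_mem _ hγ (hSm _ (Or.inl ?_)), k1, Or.inl hk1, ?_⟩
      · refine Set.mem_mul.2 ⟨k * q, Set.mul_mem_mul hk hq, k1⁻¹, Set.inv_mem_inv.2 (Or.inl hk1), ?_⟩
        rw [he]
        simp
      · rw [Subgroup.coe_mul, mul_assoc, he, mul_assoc]
    intro g
    have hg : g ∈ Subgroup.closure Q := by rw [closure_Q]; trivial
    refine Subgroup.closure_induction_right (p := fun g _ => ∃ γ : ↥Γ,
      γ ∈ Subgroup.closure (S : Set ↥Γ) ∧ ∃ k ∈ K', g = (γ : Sp) * k) ?_ ?_ ?_ hg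
    · exact ⟨1, Subgroup.one_mem _, 1, Or.inr rfl, by simp⟩
    · intro x _ y hy hx
      exact hstep x hx y (Or.inl hy)
    · intro x _ y hy hx
      exact hstep x hx y⁻¹ (Or.inr (Set.inv_mem_inv.2 hy))
  rw [eq_top_iff]
  intro γ _
  obtain ⟨γ0, hγ0, k, hk, he⟩ := hall (γ : Sp)
  have h1 : γ = γ0 * (γ0⁻¹ * γ) := by group
  rw [h1]
  refine Subgroup.mul_mem _ hγ0 (hSm _ (Or.inr ?_))
  have h2 : ((γ0⁻¹ * γ : ↥Γ) : Sp) = k := by
    rw [Subgroup.coe_mul, Subgroup.coe_inv, he]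
    simp
  rw [h2]
  exact hk

/-- the word length used in the frozen statement -/
noncomputable def wl {Γ : Subgroup Sp} (S : Finset ↥Γ) (y : ↥Γ) : ℕ :=
  sInf {n : ℕ | ∃ l : List ↥Γ, l.length = n ∧ (∀ z ∈ l, z ∈ S ∨ z⁻¹ ∈ S) ∧ l.prod = y}

theorem exists_list {Γ : Subgroup Sp} (S : Finset ↥Γ) (hS : Subgroup.closure (S : Set ↥Γ) = ⊤)
    (y : ↥Γ) : ∃ l : List ↥Γ, l.length = wl S y ∧ (∀ z ∈ l, z ∈ S ∨ z⁻¹ ∈ S) ∧ l.prod = y := by
  have hne : {n : ℕ | ∃ l : List ↥Γ, l.length = n ∧ (∀ z ∈ l, z ∈ S ∨ z⁻¹ ∈ S) ∧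
      l.prod = y}.Nonempty := by
    have hy : y ∈ Subgroup.closure (S : Set ↥Γ) := by rw [hS]; trivial
    rw [← Subgroup.mem_toSubmonoid, Subgroup.closure_toSubmonoid] at hy
    obtain ⟨l, hl, hp⟩ := Submonoid.exists_list_of_mem_closure hy
    refine ⟨l.length, l, rfl, fun z hz => ?_, hp⟩
    rcases hl z hz with h | h
    · exact Or.inl h
    · exact Or.inr (Set.mem_inv.1 h)
  exact Nat.sInf_mem hne

theorem le_wl {Γ : Subgroup Sp} (S : Finset ↥Γ) (hS : Subgroup.closure (S : Set ↥Γ) = ⊤)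
    (L : Sp → ℝ) (hL0 : ∀ g, 0 ≤ L g) (hLm : ∀ g h, L (g * h) ≤ L g + L h)
    (hLi : ∀ g, L g⁻¹ = L g) :
    ∃ c : ℝ, 0 ≤ c ∧ ∀ y : ↥Γ, L (y : Sp) ≤ L 1 + c * (wl S y : ℝ) := by
  refine ⟨∑ z ∈ S, L (z : Sp), Finset.sum_nonneg fun z _ => hL0 _, fun y => ?_⟩
  obtain ⟨l, hlen, hl, hp⟩ := exists_list S hS y
  rw [← hlen, ← hp]
  clear hlen hp
  have hz : ∀ z : ↥Γ, (z ∈ S ∨ z⁻¹ ∈ S) → L (z : Sp) ≤ ∑ z ∈ S, L (z : Sp) := by
    intro z hz
    rcases hz with hz | hz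
    · exact Finset.single_le_sum (f := fun z : ↥Γ => L (z : Sp)) (fun w _ => hL0 _) hz
    · have := Finset.single_le_sum (f := fun z : ↥Γ => L (z : Sp)) (fun w _ => hL0 _) hz
      simpa [hLi] using this
  induction l with
  | nil => simp
  | cons a l ih =>
    have ih' := ih fun z hz' => hl z (List.mem_cons_of_mem _ hz')
    have ha := hz a (hl a List.mem_cons_self)
    have := hLm (a : Sp) (l.prod : Sp)
    rw [List.prod_cons, Subgroup.coe_mul, List.length_cons, Nat.cast_add, Nat.cast_one]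
    linarith

/-- **Reduction.** The frozen statement follows from the rapid decay inequality with the weight
`(1 + c0 * L)^(2s)`, `L` any subadditive symmetric nonnegative function. -/
theorem reduction (Γ : Subgroup Sp) (hd : DiscreteTopology ↥Γ)
    (hK : ∃ K : Set Sp, IsCompact K ∧ ∀ g : Sp, ∃ γ ∈ Γ, ∃ k ∈ K, g = γ * k)
    (L : Sp → ℝ) (hL0 : ∀ g, 0 ≤ L g) (hLm : ∀ g h, L (g * h) ≤ L g + L h)
    (hLi : ∀ g, L g⁻¹ = L g) (c0 : ℝ) (hc0 : 0 ≤ c0)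
    (H : ∃ C : ℝ, ∃ s : ℕ, ∀ f g : ↥Γ →₀ ℂ, ∀ T : Finset ↥Γ,
          (∑ x ∈ T, ‖∑ y ∈ f.support, f y * g (y⁻¹ * x)‖ ^ 2) ≤
            C * (∑ y ∈ f.support, ‖f y‖ ^ 2 * (1 + c0 * L (y : Sp)) ^ (2 * s))
              * (∑ z ∈ g.support, ‖g z‖ ^ 2)) :
    ∃ S : Finset ↥Γ, Subgroup.closure (S : Set ↥Γ) = ⊤ ∧
        ∃ C : ℝ, ∃ s : ℕ, ∀ f g : ↥Γ →₀ ℂ, ∀ T : Finset ↥Γ,
          (∑ x ∈ T, ‖∑ y ∈ f.support, f y * g (y⁻¹ * x)‖ ^ 2) ≤
            C * (∑ y ∈ f.support, ‖f y‖ ^ 2 *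
              (1 + (((sInf {n : ℕ | ∃ l : List ↥Γ, l.length = n ∧
                  (∀ z ∈ l, z ∈ S ∨ z⁻¹ ∈ S) ∧ l.prod = y} : ℕ)) : ℝ)) ^ (2 * s))
              * (∑ z ∈ g.support, ‖g z‖ ^ 2) := by
  have := hd
  obtain ⟨S, hS⟩ := exists_gen Γ hK
  obtain ⟨c, hc, hLc⟩ := le_wl S hS L hL0 hLm hLi
  obtain ⟨C, s, hRD⟩ := H
  refine ⟨S, hS, |C| * (1 + c0 * L 1 + c0 * c) ^ (2 * s), s, fun f g T => ?_⟩
  refine (hRD f g T).trans ?_
  refine mul_le_mul_of_nonneg_right ?_ (Finset.sum_nonneg fun z _ => sq_nonneg _)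
  have hA : (0 : ℝ) ≤ 1 + c0 * L 1 + c0 * c := by
    have := mul_nonneg hc0 (hL0 1)
    have := mul_nonneg hc0 hc
    linarith
  have h1 : ∑ y ∈ f.support, ‖f y‖ ^ 2 * (1 + c0 * L (y : Sp)) ^ (2 * s) ≤
      (1 + c0 * L 1 + c0 * c) ^ (2 * s) *
        ∑ y ∈ f.support, ‖f y‖ ^ 2 * (1 + (wl S y : ℝ)) ^ (2 * s) := by
    rw [Finset.mul_sum]
    refine Finset.sum_le_sum fun y _ => ?_
    have h2 : 1 + c0 * L (y : Sp) ≤ (1 + c0 * L 1 + c0 * c) * (1 + (wl S y : ℝ)) := by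
      have h3 := mul_le_mul_of_nonneg_left (hLc y) hc0
      have h4 : (0 : ℝ) ≤ (wl S y : ℝ) := Nat.cast_nonneg _
      have h5 := mul_nonneg hc0 (hL0 1)
      have h6 := mul_nonneg hc0 hc
      nlinarith [mul_nonneg h5 h4, mul_nonneg h6 h4]
    have h7 : 0 ≤ 1 + c0 * L (y : Sp) := by
      have := mul_nonneg hc0 (hL0 (y : Sp))
      linarith
    have h8 : (1 + c0 * L (y : Sp)) ^ (2 * s) ≤
        ((1 + c0 * L 1 + c0 * c) * (1 + (wl S y : ℝ))) ^ (2 * s) := pow_le_pow_left₀ h7 h2 _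
    rw [mul_pow] at h8
    calc ‖f y‖ ^ 2 * (1 + c0 * L (y : Sp)) ^ (2 * s) ≤
        ‖f y‖ ^ 2 * ((1 + c0 * L 1 + c0 * c) ^ (2 * s) * (1 + (wl S y : ℝ)) ^ (2 * s)) :=
          mul_le_mul_of_nonneg_left h8 (sq_nonneg _)
      _ = _ := by ring
  have h0 : 0 ≤ ∑ y ∈ f.support, ‖f y‖ ^ 2 * (1 + c0 * L (y : Sp)) ^ (2 * s) := by
    refine Finset.sum_nonneg fun y _ => mul_nonneg (sq_nonneg _) (pow_nonneg ?_ _)
    have := mul_nonneg hc0 (hL0 (y : Sp))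
    linarith
  calc C * ∑ y ∈ f.support, ‖f y‖ ^ 2 * (1 + c0 * L (y : Sp)) ^ (2 * s)
      ≤ |C| * ∑ y ∈ f.support, ‖f y‖ ^ 2 * (1 + c0 * L (y : Sp)) ^ (2 * s) :=
        mul_le_mul_of_nonneg_right (le_abs_self C) h0
    _ ≤ |C| * ((1 + c0 * L 1 + c0 * c) ^ (2 * s) *
        ∑ y ∈ f.support, ‖f y‖ ^ 2 * (1 + (wl S y : ℝ)) ^ (2 * s)) :=
        mul_le_mul_of_nonneg_left h1 (abs_nonneg C)
    _ = |C| * (1 + c0 * L 1 + c0 * c) ^ (2 * s) *
        ∑ y ∈ f.support, ‖f y‖ ^ 2 * (1 + (wl S y : ℝ)) ^ (2 * s) := by ring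

end RD4.Gen
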